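import Mathlib
import Pool.Agent.H87.EX.Main

/-!
# Baire measurable maps on Lindelöf sets of extreme points have separable range

Question 1 has a positive answer, for every (pseudo)metrizable target space `F`.

Idea of the proof. Let `T = ext X` be Lindelöf. Every Baire set of `T` is the preimage of a Borel set
of `ℝ^ℕ` under a map `g` given by countably many continuous linear functionals. The heart of the
proof is that `g(T)` is always analytic: there are countably many continuous affine functions
`a_{n,k} ≥ 0` on `X` such that `Z = {x | ∀ n, ∃ k, a_{n,k}(x) < 4⁻ⁿ}` contains `T` and such that, for
`x ∈ Z` and corresponding indices `k(n)`, the lower semicontinuous affine function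
`u = Σ 2ⁿ a_{n,k(n)}` is finite at `x`, and `g` is constant on `{u < ∞}`. The set where `u` attains
its minimum is a closed face, so it contains a point of `T`; hence `g(T) = g(Z)`, which is analytic.
A nonseparable range would then give an uncountable subset of the Cantor space all of whose subsets
are analytic, contradicting the perfect set theorem.
-/

set_option autoImplicit false

namespace Pool.Agent.Results.MP_fe178f_an.SeparableRange

open Set Topology MeasureTheory

universe u v

/-- The members of the `σ`-algebra generated by the zero sets of continuous real functions. -/
def BaireSet {T : Type u} [TopologicalSpace T] (S : Set T) : Prop :=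
  MeasurableSet[MeasurableSpace.generateFrom
    {Z : Set T | ∃ g : T → ℝ, Continuous g ∧ Z = g ⁻¹' {0}}] S

/-- Preimages of open sets are Baire sets. -/
def BaireMeasurable {T : Type u} [TopologicalSpace T] {F : Type v} [TopologicalSpace F]
    (f : T → F) : Prop :=
  ∀ U : Set F, IsOpen U → BaireSet (f ⁻¹' U)

/-- **Theorem.** Let `X` be a compact convex subset of a Hausdorff locally convex space whose set of
extreme points is Lindelöf, and let `f : ext X → F` be a Baire measurable map into a metrizable
space. Then the range of `f` is separable. -/
theorem result {E : Type u} [AddCommGroup E] [Module ℝ E] [TopologicalSpace E]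
    [IsTopologicalAddGroup E] [ContinuousSMul ℝ E] [LocallyConvexSpace ℝ E] [T2Space E]
    (X : Set E) (hXc : IsCompact X) (hX : Convex ℝ X) (hL : LindelofSpace (X.extremePoints ℝ))
    {F : Type v} [TopologicalSpace F] [TopologicalSpace.PseudoMetrizableSpace F]
    (f : X.extremePoints ℝ → F) (hf : BaireMeasurable f) :
    TopologicalSpace.IsSeparable (range f) :=
  Pool.Agent.H87.EX.separable_range hXc hX hL f hf

end Pool.Agent.Results.MP_fe178f_an.SeparableRange
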